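import Mathlib

/-!
# The EKR property of the families `H^{(p,s)}(n)` (Fuentes-Kamat)

The vertex set of `nK_2` is `Fin n × Bool`; the edge number `k` joins `(k, true)` and
`(k, false)`.  The family `family n p s` consists of the vertex sets containing both ends of
exactly `p` edges and exactly one end of exactly `s` further edges.

Proof (Katona's circle method).  Place the vertices of `nK_2` on the cycle `Z_{2n}`, the vertex
`(k, false)` at position `2k` and the vertex `(k, true)` at position `2k + s`.  Then each of the
`2n` windows of `2p + s` consecutive positions contains both ends of exactly `p` edges and one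
end of exactly `s` edges.  At most `2p + s ≤ n` of the windows can pairwise intersect, and each
vertex lies in exactly `2p + s` windows; average over the automorphisms of `nK_2`.
-/

namespace Pool.Agent.Results.MP_cbbe60_co.EKRPartialMatchings

open Finset

/-- The edges of `nK_2` with both ends in `S`. -/
def fullEdges {n : ℕ} (S : Finset (Fin n × Bool)) : Finset (Fin n) :=
  univ.filter fun k => (k, true) ∈ S ∧ (k, false) ∈ S

/-- The edges of `nK_2` with exactly one end in `S`. -/
def halfEdges {n : ℕ} (S : Finset (Fin n × Bool)) : Finset (Fin n) :=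
  univ.filter fun k => ((k, true) ∈ S ∧ (k, false) ∉ S) ∨ ((k, true) ∉ S ∧ (k, false) ∈ S)

/-- The family `H^{(p,s)}(n)`. -/
def family (n p s : ℕ) : Finset (Finset (Fin n × Bool)) :=
  univ.filter fun S => (fullEdges S).card = p ∧ (halfEdges S).card = s

/-- The star of the vertex `x` in `H^{(p,s)}(n)`. -/
def star (n p s : ℕ) (x : Fin n × Bool) : Finset (Finset (Fin n × Bool)) :=
  (family n p s).filter fun S => x ∈ S

/-- Intersecting families. -/
def Intersecting {n : ℕ} (F : Finset (Finset (Fin n × Bool))) : Prop :=
  ∀ S ∈ F, ∀ T ∈ F, (S ∩ T).Nonempty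

/-! ### Automorphisms -/

/-- The data of an automorphism of `nK_2`. -/
abbrev Aut (n : ℕ) := Equiv.Perm (Fin n) × (Fin n → Bool)

/-- The image of a vertex set under an automorphism. -/
def act {n : ℕ} (g : Aut n) (S : Finset (Fin n × Bool)) : Finset (Fin n × Bool) :=
  univ.filter fun v => (g.1.symm v.1, xor v.2 (g.2 v.1)) ∈ S

theorem mem_act {n : ℕ} (g : Aut n) (S : Finset (Fin n × Bool)) (v : Fin n × Bool) :
    v ∈ act g S ↔ (g.1.symm v.1, xor v.2 (g.2 v.1)) ∈ S := by
  simp [act]

theorem full_act {n : ℕ} (g : Aut n) (S : Finset (Fin n × Bool)) :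
    (fullEdges (act g S)).card = (fullEdges S).card := by
  have h : fullEdges (act g S) = (fullEdges S).map g.1.toEmbedding := by
    ext k
    simp only [fullEdges, mem_filter, mem_univ, true_and, mem_act, mem_map_equiv]
    cases g.2 k <;> simp [and_comm]
  rw [h, card_map]

theorem half_act {n : ℕ} (g : Aut n) (S : Finset (Fin n × Bool)) :
    (halfEdges (act g S)).card = (halfEdges S).card := by
  have h : halfEdges (act g S) = (halfEdges S).map g.1.toEmbedding := by
    ext k
    simp only [halfEdges, mem_filter, mem_univ, true_and, mem_act, mem_map_equiv]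
    cases g.2 k
    · simp
    · simp
      tauto
  rw [h, card_map]

theorem act_mem_family {n p s : ℕ} (g : Aut n) {S : Finset (Fin n × Bool)}
    (hS : S ∈ family n p s) : act g S ∈ family n p s := by
  simp only [family, mem_filter, mem_univ, true_and] at hS ⊢
  rw [full_act, half_act]
  exact hS

/-- Transitivity of the automorphism group on the family. -/
theorem exists_act_eq {n p s : ℕ} {S T : Finset (Fin n × Bool)}
    (hS : S ∈ family n p s) (hT : T ∈ family n p s) : ∃ g : Aut n, act g S = T := by
  classical
  simp only [family, mem_filter, mem_univ, true_and] at hS hT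
  have key : ∀ c : Bool × Bool,
      Fintype.card {k : Fin n // (decide (k ∈ fullEdges S), decide (k ∈ halfEdges S)) = c} =
      Fintype.card {k : Fin n // (decide (k ∈ fullEdges T), decide (k ∈ halfEdges T)) = c} := by
    intro c
    rw [Fintype.card_subtype, Fintype.card_subtype]
    have aux : ∀ R : Finset (Fin n × Bool), (fullEdges R).card = p → (halfEdges R).card = s →
        (univ.filter fun k : Fin n =>
          (decide (k ∈ fullEdges R), decide (k ∈ halfEdges R)) = c).card =
        if c = (true, true) then 0 else if c = (true, false) then p else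
          if c = (false, true) then s else n - p - s := by
      intro R hp hs
      have hdis : Disjoint (fullEdges R) (halfEdges R) := by
        rw [Finset.disjoint_left]
        intro k h1 h2
        simp only [fullEdges, halfEdges, mem_filter, mem_univ, true_and] at h1 h2
        tauto
      rcases c with ⟨_ | _, _ | _⟩
      · have : (univ.filter fun k : Fin n =>
          (decide (k ∈ fullEdges R), decide (k ∈ halfEdges R)) = (false, false)) =
          (univ \ fullEdges R) \ halfEdges R := by
          ext k
          simp
        rw [this, card_sdiff_of_subset, card_sdiff_of_subset (subset_univ _), card_univ,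
          Fintype.card_fin, hp, hs]
        · simp
        · intro k hk
          rw [mem_sdiff]
          exact ⟨mem_univ _, fun h => (Finset.disjoint_left.1 hdis) h hk⟩
      · have : (univ.filter fun k : Fin n =>
          (decide (k ∈ fullEdges R), decide (k ∈ halfEdges R)) = (false, true)) =
          halfEdges R := by
          ext k
          simp only [mem_filter, mem_univ, true_and, Prod.mk.injEq, decide_eq_false_iff_not,
            decide_eq_true_eq]
          exact ⟨fun h => h.2, fun h => ⟨fun h' => (Finset.disjoint_left.1 hdis) h' h, h⟩⟩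
        rw [this, hs]
        simp
      · have : (univ.filter fun k : Fin n =>
          (decide (k ∈ fullEdges R), decide (k ∈ halfEdges R)) = (true, false)) =
          fullEdges R := by
          ext k
          simp only [mem_filter, mem_univ, true_and, Prod.mk.injEq, decide_eq_false_iff_not,
            decide_eq_true_eq]
          exact ⟨fun h => h.1, fun h => ⟨h, fun h' => (Finset.disjoint_left.1 hdis) h h'⟩⟩
        rw [this, hp]
        simp
      · have : (univ.filter fun k : Fin n =>
          (decide (k ∈ fullEdges R), decide (k ∈ halfEdges R)) = (true, true)) = ∅ := by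
          ext k
          simp only [mem_filter, mem_univ, true_and, Prod.mk.injEq, decide_eq_false_iff_not,
            decide_eq_true_eq, notMem_empty, iff_false]
          exact fun h => (Finset.disjoint_left.1 hdis) h.1 h.2
        rw [this]
        simp
    rw [aux S hS.1 hS.2, aux T hT.1 hT.2]
  let e : ∀ c : Bool × Bool,
      {k : Fin n // (decide (k ∈ fullEdges S), decide (k ∈ halfEdges S)) = c} ≃
      {k : Fin n // (decide (k ∈ fullEdges T), decide (k ∈ halfEdges T)) = c} :=
    fun c => Fintype.equivOfCardEq (key c)
  let π : Equiv.Perm (Fin n) := Equiv.ofFiberEquiv e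
  have hπ : ∀ k, (decide (π k ∈ fullEdges T), decide (π k ∈ halfEdges T)) =
      (decide (k ∈ fullEdges S), decide (k ∈ halfEdges S)) := fun k =>
    Equiv.ofFiberEquiv_map e k
  refine ⟨(π, fun k => xor (decide ((k, true) ∈ T)) (decide ((π.symm k, true) ∈ S))), ?_⟩
  ext ⟨k, b⟩
  rw [mem_act]
  have h := hπ (π.symm k)
  rw [Equiv.apply_symm_apply] at h
  simp only [Prod.mk.injEq, decide_eq_decide, fullEdges, halfEdges, mem_filter, mem_univ,
    true_and] at h
  obtain ⟨h1, h2⟩ := h
  by_cases a1 : (k, true) ∈ T <;> by_cases a2 : (k, false) ∈ T <;>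
    by_cases a3 : (π.symm k, true) ∈ S <;> by_cases a4 : (π.symm k, false) ∈ S <;>
    cases b <;> simp_all

/-- The number of automorphisms mapping `W` to `S` does not depend on the member `S`. -/
theorem count_le {n p s : ℕ} (W : Finset (Fin n × Bool)) {S T : Finset (Fin n × Bool)}
    (hS : S ∈ family n p s) (hT : T ∈ family n p s) :
    (univ.filter fun g : Aut n => act g W = S).card ≤
      (univ.filter fun g : Aut n => act g W = T).card := by
  classical
  obtain ⟨h, rfl⟩ := exists_act_eq hS hT
  refine Finset.card_le_card_of_injOn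
    (fun g : Aut n => ((g.1.trans h.1, fun k => xor (h.2 k) (g.2 (h.1.symm k))) : Aut n)) ?_ ?_
  · intro g hg
    simp only [coe_filter, mem_univ, true_and, Set.mem_setOf_eq] at hg ⊢
    rw [← hg]
    ext v
    rw [mem_act, mem_act, mem_act]
    simp only [Equiv.symm_trans_apply, Bool.xor_assoc]
  · intro g _ g' _ hgg
    simp only [Prod.mk.injEq] at hgg
    obtain ⟨h1, h2⟩ := hgg
    refine Prod.ext ?_ ?_
    · ext k
      have := congrArg (fun e : Equiv.Perm (Fin n) => h.1.symm (e k)) h1
      simpa using congrArg Fin.val this
    · funext k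
      have := congrFun h2 (h.1 k)
      simpa using this

theorem count_eq {n p s : ℕ} (W : Finset (Fin n × Bool)) {S T : Finset (Fin n × Bool)}
    (hS : S ∈ family n p s) (hT : T ∈ family n p s) :
    (univ.filter fun g : Aut n => act g W = S).card =
      (univ.filter fun g : Aut n => act g W = T).card :=
  le_antisymm (count_le W hS hT) (count_le W hT hS)

/-! ### The cycle -/

/-- Katona's lemma: pairwise intersecting arcs of length `L` on a cycle of length at
least `2L`. -/
theorem katona (N L : ℕ) [NeZero N] (hL : 2 * L ≤ N) (A : Finset (ZMod N))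
    (hA : ∀ i ∈ A, ∀ j ∈ A, (j - i).val < L ∨ (i - j).val < L) : A.card ≤ L := by
  rcases A.eq_empty_or_nonempty with rfl | ⟨a, ha⟩
  · simp
  have hvl : ∀ x : ZMod N, x.val < N := fun x => ZMod.val_lt x
  have hLpos : 0 < L := by
    have := hA a ha a ha
    omega
  have hLN : L < N := by omega
  have hLval : ((L : ℕ) : ZMod N).val = L := by
    rw [ZMod.val_natCast, Nat.mod_eq_of_lt hLN]
  have h2 : ∀ j ∈ A, ¬ (j - a).val < L → (j - a + (L : ZMod N)).val < L := by
    intro j hj hn
    have h := (hA a ha j hj).resolve_left hn
    have h3 : (j - a) + (a - j) = 0 := by ring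
    have h4 : ((j - a) + (a - j)).val = ((j - a).val + (a - j).val) % N := ZMod.val_add _ _
    rw [h3, ZMod.val_zero] at h4
    have h5 := hvl (j - a)
    have h6 : (j - a).val + (a - j).val = N := by
      have h7 : N ∣ (j - a).val + (a - j).val := Nat.dvd_of_mod_eq_zero h4.symm
      obtain ⟨c, hc⟩ := h7
      have h8 : c = 1 := by
        have h9 : (j - a).val + (a - j).val < N * 2 := by omega
        rw [hc] at h9
        have h10 : c < 2 := Nat.lt_of_mul_lt_mul_left h9
        have h11 : c ≠ 0 := by
          rintro rfl
          omega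
        omega
      rw [hc, h8, mul_one]
    rw [ZMod.val_add, hLval]
    have h12 : (j - a).val + L = N + ((j - a).val + L - N) := by omega
    rw [h12, Nat.add_mod_left, Nat.mod_eq_of_lt (by omega)]
    omega
  have hcard : (range L).card = L := card_range L
  rw [← hcard]
  refine Finset.card_le_card_of_injOn
    (fun j => if (j - a).val < L then (j - a).val else (j - a + (L : ZMod N)).val) ?_ ?_
  · intro j hj
    simp only [coe_range, Set.mem_Iio]
    split_ifs with h
    · exact h
    · exact h2 j hj h
  · have hne : ∀ i ∈ A, ∀ j ∈ A, (i - a) ≠ (j - a + (L : ZMod N)) := by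
      intro i hi j hj h
      have h3 : i - j = (L : ZMod N) := by
        have : i = j + (L : ZMod N) := by
          have := congrArg (· + a) h
          simp only [sub_add_cancel] at this
          rw [this]
          ring
        rw [this]
        ring
      have h4 := hA i hi j hj
      rw [h3, hLval] at h4
      have h5 : (j - i).val < L := by omega
      have h6 : (j - i) + (i - j) = 0 := by ring
      have h7 : ((j - i) + (i - j)).val = ((j - i).val + (i - j).val) % N := ZMod.val_add _ _
      rw [h6, ZMod.val_zero, h3, hLval, Nat.mod_eq_of_lt (by omega)] at h7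
      omega
    intro i hi j hj hij
    simp only at hij
    split_ifs at hij with h3 h4 h4
    · have := ZMod.val_injective N hij
      simpa using this
    · exact absurd (ZMod.val_injective N hij) (hne i hi j hj)
    · exact absurd (ZMod.val_injective N hij).symm (hne j hj i hi)
    · have := ZMod.val_injective N hij
      simpa using this

/-- The position on the cycle of a vertex. -/
def pos (n s : ℕ) (v : Fin n × Bool) : ZMod (2 * n) :=
  ((2 * v.1.val + (if v.2 then s else 0) : ℕ) : ZMod (2 * n))

/-- The windows of length `L`. -/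
def win (n s L : ℕ) (t : ZMod (2 * n)) : Finset (Fin n × Bool) :=
  univ.filter fun v => (pos n s v + t).val < L

theorem mem_win {n s L : ℕ} {t : ZMod (2 * n)} {v : Fin n × Bool} :
    v ∈ win n s L t ↔ (pos n s v + t).val < L := by
  simp [win]

theorem card_val_lt (N L : ℕ) [NeZero N] (hL : L ≤ N) :
    (univ.filter fun d : ZMod N => d.val < L).card = L := by
  have h : (univ.filter fun d : ZMod N => d.val < L) =
      (range L).image (fun k : ℕ => (k : ZMod N)) := by
    ext d
    simp only [mem_filter, mem_univ, true_and, mem_image, mem_range]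
    constructor
    · intro hd
      exact ⟨d.val, hd, ZMod.natCast_zmod_val d⟩
    · rintro ⟨k, hk, rfl⟩
      rw [ZMod.val_natCast, Nat.mod_eq_of_lt (by omega)]
      exact hk
  rw [h, card_image_of_injOn, card_range]
  intro a ha b hb hab
  simp only [coe_range, Set.mem_Iio] at ha hb
  have := congrArg ZMod.val hab
  simp only [ZMod.val_natCast] at this
  rwa [Nat.mod_eq_of_lt (by omega), Nat.mod_eq_of_lt (by omega)] at this

/-- Each vertex lies in exactly `L` windows. -/
theorem card_win {n s L : ℕ} [NeZero (2 * n)] (hL : L ≤ 2 * n) (v : Fin n × Bool) :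
    (univ.filter fun t : ZMod (2 * n) => v ∈ win n s L t).card = L := by
  have h : (univ.filter fun t : ZMod (2 * n) => v ∈ win n s L t).map
      (Equiv.addLeft (pos n s v)).toEmbedding =
      (univ.filter fun d : ZMod (2 * n) => d.val < L) := by
    ext d
    simp only [mem_map_equiv, mem_filter, mem_univ, true_and, mem_win]
    simp
  rw [← card_map (Equiv.addLeft (pos n s v)).toEmbedding, h, card_val_lt _ _ hL]

theorem win_inter {n s L : ℕ} [NeZero (2 * n)] {t t' : ZMod (2 * n)}
    (h : (win n s L t ∩ win n s L t').Nonempty) : (t' - t).val < L ∨ (t - t').val < L := by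
  obtain ⟨v, hv⟩ := h
  rw [mem_inter, mem_win, mem_win] at hv
  obtain ⟨h1, h2⟩ := hv
  have aux : ∀ x y : ZMod (2 * n), y.val ≤ x.val → (x - y).val ≤ x.val := by
    intro x y hxy
    rw [ZMod.val_sub hxy]
    omega
  rcases le_total (pos n s v + t).val (pos n s v + t').val with hle | hle
  · left
    have := aux _ _ hle
    have e : pos n s v + t' - (pos n s v + t) = t' - t := by ring
    rw [e] at this
    omega
  · right
    have := aux _ _ hle
    have e : pos n s v + t - (pos n s v + t') = t - t' := by ring
    rw [e] at this
    omega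

theorem card_fin_filter (n : ℕ) (P : ℕ → Prop) [DecidablePred P] :
    (univ.filter fun m : Fin n => P m.val).card = ((range n).filter P).card := by
  rw [card_filter, card_filter]
  exact Fin.sum_univ_eq_sum_range (fun m => if P m then 1 else 0) n

/-- Each window is a member of the family. -/
theorem win_mem {n p s : ℕ} [NeZero n] (h : 2 * p + s ≤ n) (t : ZMod (2 * n)) :
    win n s (2 * p + s) t ∈ family n p s := by
  haveI : NeZero (2 * n) := ⟨by have := NeZero.ne n; omega⟩
  have hn : 0 < n := Nat.pos_of_ne_zero (NeZero.ne n)
  -- write `t = 2 j + c`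
  obtain ⟨j, c, hj, hc, ht⟩ : ∃ j c : ℕ, j < n ∧ c < 2 ∧ t = ((2 * j + c : ℕ) : ZMod (2 * n)) := by
    have h1 : t.val < 2 * n := ZMod.val_lt t
    refine ⟨t.val / 2, t.val % 2, by omega, Nat.mod_lt _ (by norm_num), ?_⟩
    rw [Nat.div_add_mod, ZMod.natCast_zmod_val]
  let J : Fin n := ⟨j, hj⟩
  have hval : ∀ k : Fin n, ∀ r : ℕ, r ≤ 1 → ∀ a : ℕ, a = (if r = 1 then s else 0) →
      (((2 * k.val + a : ℕ) : ZMod (2 * n)) + t).val =
        (2 * (k + J : Fin n).val + c + a) % (2 * n) := by
    intro k r _ a _
    rw [ht, ← Nat.cast_add, ZMod.val_natCast, Fin.val_add]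
    have e1 : 2 * ((k.val + J.val) % n) = (2 * (k.val + J.val)) % (2 * n) :=
      (Nat.mul_mod_mul_left 2 _ _).symm
    rw [e1]
    have e2 : 2 * k.val + a + (2 * j + c) = 2 * (k.val + J.val) + (c + a) := by
      simp only [J]
      ring
    rw [e2, add_assoc]
    exact (Nat.mod_add_mod _ _ _).symm
  have hf : ∀ k : Fin n, ((k, false) ∈ win n s (2 * p + s) t ↔
      2 * (k + J : Fin n).val + c < 2 * p + s) := by
    intro k
    rw [mem_win, pos]
    have h1 := hval k 0 (by norm_num) 0 (by simp)
    simp only [Bool.false_eq_true, if_false] at h1 ⊢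
    rw [h1]
    have h2 : (k + J : Fin n).val < n := (k + J).isLt
    rw [add_zero, Nat.mod_eq_of_lt (by omega)]
  have htr : ∀ k : Fin n, ((k, true) ∈ win n s (2 * p + s) t ↔
      (2 * (k + J : Fin n).val + c + s) % (2 * n) < 2 * p + s) := by
    intro k
    rw [mem_win, pos]
    have h1 := hval k 1 (by norm_num) s (by simp)
    simp only [if_true] at h1 ⊢
    rw [h1]
  have hmod : ∀ m : ℕ, m < n → ((2 * m + c + s) % (2 * n) < 2 * p + s ↔
      (2 * m + c < 2 * p ∨ 2 * n - s ≤ 2 * m + c)) := by
    intro m hm
    rcases lt_or_ge (2 * m + c + s) (2 * n) with hlt | hge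
    · rw [Nat.mod_eq_of_lt hlt]
      omega
    · rw [Nat.mod_eq_sub_mod hge, Nat.mod_eq_of_lt (by omega)]
      omega
  -- reindex
  have hre : ∀ P : ℕ → Prop, ∀ [DecidablePred P],
      (univ.filter fun k : Fin n => P (k + J : Fin n).val).card =
        ((range n).filter P).card := by
    intro P _
    rw [← card_fin_filter]
    rw [← card_map (Equiv.addRight J).toEmbedding]
    congr 1
    ext d
    simp [mem_map_equiv]
  simp only [family, mem_filter, mem_univ, true_and]
  constructor
  · have e1 : fullEdges (win n s (2 * p + s) t) =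
        (univ.filter fun k : Fin n => 2 * (k + J : Fin n).val + c < 2 * p) := by
      ext k
      simp only [fullEdges, mem_filter, mem_univ, true_and]
      rw [hf, htr, hmod _ (k + J).isLt]
      omega
    rw [e1, hre (fun m => 2 * m + c < 2 * p)]
    have e2 : (range n).filter (fun m => 2 * m + c < 2 * p) = range p := by
      ext m
      simp only [mem_filter, mem_range]
      omega
    rw [e2, card_range]
  · have e1 : halfEdges (win n s (2 * p + s) t) =
        (univ.filter fun k : Fin n =>
          (2 * p ≤ 2 * (k + J : Fin n).val + c ∧ 2 * (k + J : Fin n).val + c < 2 * p + s) ∨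
          2 * n - s ≤ 2 * (k + J : Fin n).val + c) := by
      ext k
      simp only [halfEdges, mem_filter, mem_univ, true_and]
      rw [hf, htr, hmod _ (k + J).isLt]
      omega
    rw [e1, hre (fun m => (2 * p ≤ 2 * m + c ∧ 2 * m + c < 2 * p + s) ∨ 2 * n - s ≤ 2 * m + c)]
    have e2 : (range n).filter (fun m => (2 * p ≤ 2 * m + c ∧ 2 * m + c < 2 * p + s) ∨
        2 * n - s ≤ 2 * m + c) =
        Finset.Ico p (p + (s + 1 - c) / 2) ∪ Finset.Ico (n - (s + c) / 2) n := by
      ext m
      simp only [mem_filter, mem_range, mem_union, Finset.mem_Ico]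
      omega
    rw [e2, card_union_of_disjoint]
    · rw [Nat.card_Ico, Nat.card_Ico]
      omega
    · rw [Finset.disjoint_left]
      intro m h1 h2
      rw [Finset.mem_Ico] at h1 h2
      omega

/-- Every star is at least as large as every intersecting subfamily. -/
theorem main {n p s : ℕ} (h : 2 * p + s ≤ n) (F : Finset (Finset (Fin n × Bool)))
    (hF : F ⊆ family n p s) (hI : Intersecting F) (x : Fin n × Bool) :
    F.card ≤ (star n p s x).card := by
  classical
  have hn : 0 < n := lt_of_le_of_lt (Nat.zero_le _) x.1.isLt
  haveI : NeZero n := ⟨hn.ne'⟩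
  haveI : NeZero (2 * n) := ⟨by omega⟩
  set L := 2 * p + s with hLdef
  set W : ZMod (2 * n) → Finset (Fin n × Bool) := win n s L with hW
  have hWmem : ∀ t, W t ∈ family n p s := fun t => win_mem h t
  -- the inequality for a fixed automorphism
  have h1 : ∀ g : Aut n, (univ.filter fun t => act g (W t) ∈ F).card ≤
      (univ.filter fun t => act g (W t) ∈ star n p s x).card := by
    intro g
    have h2 : (univ.filter fun t => act g (W t) ∈ star n p s x).card = L := by
      have h3 : (univ.filter fun t => act g (W t) ∈ star n p s x) =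
          (univ.filter fun t : ZMod (2 * n) =>
            ((g.1.symm x.1, xor x.2 (g.2 x.1)) : Fin n × Bool) ∈ win n s L t) := by
        ext t
        simp only [mem_filter, mem_univ, true_and, star, act_mem_family g (hWmem t), mem_act]
        rfl
      rw [h3]
      exact card_win (by omega) _
    rw [h2]
    apply katona (2 * n) L (by omega)
    intro i hi j hj
    simp only [mem_filter, mem_univ, true_and] at hi hj
    obtain ⟨v, hv⟩ := hI _ hi _ hj
    rw [mem_inter, mem_act, mem_act] at hv
    exact win_inter ⟨_, mem_inter.2 hv⟩
  -- sum over all automorphisms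
  have h4 : ∀ X : Finset (Finset (Fin n × Bool)), X ⊆ family n p s →
      ∑ g : Aut n, (univ.filter fun t => act g (W t) ∈ X).card =
        X.card * ∑ t, (univ.filter fun g : Aut n => act g (W t) = W t).card := by
    intro X hX
    simp_rw [card_filter]
    rw [Finset.sum_comm, Finset.mul_sum]
    refine Finset.sum_congr rfl fun t _ => ?_
    have h5 : ∀ g : Aut n, (if act g (W t) ∈ X then 1 else 0) =
        ∑ S ∈ X, if act g (W t) = S then 1 else 0 := by
      intro g
      rw [Finset.sum_ite_eq]
    simp_rw [h5]
    rw [Finset.sum_comm, Finset.card_eq_sum_ones, Finset.sum_mul]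
    refine Finset.sum_congr rfl fun S hS => ?_
    rw [one_mul, ← card_filter, ← card_filter]
    exact count_eq (W t) (hX hS) (hWmem t)
  have h6 := Finset.sum_le_sum (s := (univ : Finset (Aut n))) fun g _ => h1 g
  rw [h4 F hF, h4 (star n p s x) (filter_subset _ _)] at h6
  refine Nat.le_of_mul_le_mul_right h6 ?_
  refine Finset.sum_pos (fun t _ => ?_) ⟨0, mem_univ _⟩
  rw [Finset.card_pos]
  refine ⟨(Equiv.refl _, fun _ => false), ?_⟩
  rw [mem_filter]
  refine ⟨mem_univ _, ?_⟩
  ext v
  rw [mem_act]
  simp

/-- **Q1 (Fuentes-Kamat), affirmative answer.**  For all `p, s ≥ 0` and all `n ≥ 2p + s`, every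
intersecting subfamily of `H^{(p,s)}(n)` has at most `max_x |H_x|` members. -/
theorem result (n p s : ℕ) (h : 2 * p + s ≤ n) (F : Finset (Finset (Fin n × Bool)))
    (hF : F ⊆ family n p s) (hI : Intersecting F) :
    F.card ≤ univ.sup fun x : Fin n × Bool => (star n p s x).card := by
  rcases F.eq_empty_or_nonempty with rfl | ⟨S, hS⟩
  · simp
  · obtain ⟨x, _⟩ := hI S hS S hS
    exact (main h F hF hI x).trans
      (Finset.le_sup (f := fun x : Fin n × Bool => (star n p s x).card) (mem_univ x))

end Pool.Agent.Results.MP_cbbe60_co.EKRPartialMatchings
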